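import Pool.Agent.H66.Rec.Top
import Pool.Agent.H66.L.T9f66d723.W5h13.LS.E3

set_option autoImplicit false
set_option linter.unusedSectionVars false

/-!
# Recurrence modulo a map or a group: the Anosov part
-/

open scoped Manifold ContDiff Topology Bundle
open Set Filter Bundle

namespace Pool.Agent.H66.Rec

open Pool.Agent.W5h13.LS Pool.Agent.H789R2.AN Pool.Agent.H721R2 Pool.Agent.TH289

section metric

variable {X : Type*} [MetricSpace X] [CompactSpace X]

theorem attracts_of_lp {f : X ≃ₜ X} {N : ℕ} (hN : 1 ≤ N) {c : ℝ} (h : LP (iterHomeo f N) c)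
    {A : Set X} (hA : IsAtt (iterHomeo f N) A) (hf : ∀ x ∈ A, f x ∈ A) :
    ∃ O, Attracts (f : X → X) A O := by
  obtain ⟨δ, hδ, hnear⟩ := h.near
  refine ⟨Metric.thickening δ A, Metric.isOpen_thickening, Metric.self_subset_thickening hδ A, ?_⟩
  intro V hV hAV
  have hfn : ∀ n : ℕ, ∀ x ∈ A, f^[n] x ∈ A := by
    intro n
    induction n with
    | zero => exact fun x hx => hx
    | succ n ih =>
      intro x hx
      rw [Function.iterate_succ_apply']
      exact hf _ (ih x hx)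
  -- a neighbourhood of `A` whose first `N` images are in `V`
  set V' : Set X := ⋂ r ∈ Finset.range N, f^[r] ⁻¹' V with hV'
  have hV'o : IsOpen V' :=
    isOpen_biInter_finset fun r _ => hV.preimage (f.continuous.iterate r)
  have hAV' : A ⊆ V' := by
    intro x hx
    simp only [hV', mem_iInter]
    exact fun r _ => hAV (hfn r x hx)
  obtain ⟨ε, hε, hεV⟩ := hA.closed.isCompact.exists_thickening_subset_open hV'o hAV'
  have hlim : Tendsto (fun n : ℕ => c * (1 / 2 : ℝ) ^ n) atTop (𝓝 0) := by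
    have := (tendsto_pow_atTop_nhds_zero_of_lt_one (by norm_num : (0:ℝ) ≤ 1 / 2)
      (by norm_num)).const_mul c
    simpa using this
  obtain ⟨q₀, hq₀⟩ := eventually_atTop.mp ((tendsto_order.mp hlim).2 ε hε)
  refine ⟨N * q₀, fun n hn x hx => ?_⟩
  obtain ⟨a, ha, hxa⟩ := Metric.mem_thickening_iff.mp hx
  obtain ⟨z, hz, hxz⟩ := hnear A hA a ha x hxa
  have h1 := h.cS _ _ hxz (n / N)
  have h2 : q₀ ≤ n / N := (Nat.le_div_iff_mul_le hN).mpr (by rwa [mul_comm] at hn)
  have h3 := lt_of_le_of_lt h1 (hq₀ _ h2)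
  have h4 : (iterHomeo f N)^[n / N] x ∈ V' := by
    refine hεV (Metric.mem_thickening_iff.mpr ⟨_, (inv_iter hA.inv _ z).mpr hz, h3⟩)
  have h5 : ∀ k : ℕ, (iterHomeo f N)^[k] x = f^[N * k] x := by
    intro k
    rw [Function.iterate_mul]
    rfl
  rw [h5] at h4
  simp only [hV', mem_iInter, Finset.mem_range] at h4
  have h6 : f^[n % N] (f^[N * (n / N)] x) ∈ V := h4 (n % N) (Nat.mod_lt _ hN)
  rw [← Function.iterate_add_apply, Nat.mod_add_div] at h6
  exact h6

end metric

variable {E : Type*} [NormedAddCommGroup E] [NormedSpace ℝ E] [FiniteDimensional ℝ E]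
  {M : Type*} [TopologicalSpace M] [T2Space M] [CompactSpace M] [ConnectedSpace M]
  [ChartedSpace E M] [IsManifold 𝓘(ℝ, E) ∞ M]

theorem asym_symm_self (f : M ≃ₜ M) {x y : M} (h : Asym f.symm x y) : Asym f.symm (f x) (f y) := by
  unfold Asym at *
  rw [← tendsto_add_atTop_iff_nat 1]
  refine h.congr fun n => ?_
  rw [Function.iterate_succ_apply, Function.iterate_succ_apply, f.symm_apply_apply,
    f.symm_apply_apply]

theorem asym_symm_symm (f : M ≃ₜ M) {x y : M} (h : Asym f.symm x y) :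
    Asym f.symm (f.symm x) (f.symm y) := by
  unfold Asym at *
  have h1 := (tendsto_add_atTop_iff_nat 1).mpr h
  refine h1.congr fun n => ?_
  rw [Function.iterate_succ_apply, Function.iterate_succ_apply]

theorem asym_refl (f : M → M) (x : M) : Asym f x x := by
  unfold Asym
  have h1 : ∀ s ∈ 𝓝ˢ (diagonal M), ∀ z : M, (z, z) ∈ s := fun s hs z =>
    subset_of_mem_nhdsSet hs (by simp : (z, z) ∈ diagonal M)
  intro s hs
  rw [mem_map]
  exact Eventually.of_forall fun n => h1 s hs _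

theorem leafMap_self (f : M ≃ₜ M) : LeafMap f.symm f.symm f where
  continuous := f.continuous
  map _ _ h := asym_symm_self f h
  meets y := ⟨f.symm y, by rw [f.apply_symm_apply]; exact asym_refl _ y⟩

theorem leafMap_symm (f : M ≃ₜ M) : LeafMap f.symm f.symm f.symm where
  continuous := f.symm.continuous
  map _ _ h := asym_symm_symm f h
  meets y := ⟨f y, by rw [f.symm_apply_apply]; exact asym_refl _ y⟩

/-- **The core**: `f` is transitive if every attractor that is invariant under all leaf maps is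
`M`. -/
theorem core (f : Diffeomorph 𝓘(ℝ, E) 𝓘(ℝ, E) M M 1)
    (Es Eu : ∀ x : M, Submodule ℝ (TangentSpace 𝓘(ℝ, E) x)) (hA : IsAnosov f Es Eu)
    (H : ∀ A O : Set M, IsClosed A → A.Nonempty → (∀ x, f x ∈ A ↔ x ∈ A) →
      (∀ γ : M → M, LeafMap f.symm f.symm γ → MapsTo γ A A) → Attracts f A O → A = univ) :
    TopTransitive f := by
  have hm := (man_family (ι := Unit) (fun _ => f) (fun _ => Es) (fun _ => Eu) (fun _ => hA)
    (fun _ _ => Relation.EqvGen.refl _)).2.2
  have h1 : (∃ (Γ : Set (M → M)) (Φ : Set (M ≃ₜ M)),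
        (∀ γ ∈ Γ, ∃ _ _ : Unit, LeafMap f.symm f.symm γ) ∧
        (∀ φ ∈ Φ, ∃ _ : Unit, Contracts f.toHomeomorph φ) ∧
        ∀ A : Set M, A.Nonempty → (∀ _ : Unit, ClosedLeafUnion f.symm A) → (∀ γ ∈ Γ, MapsTo γ A A) →
          (∀ φ ∈ Φ, ∀ x ∈ A, Leaf φ x ⊆ A) →
          (interior A).Nonempty ∨ ∃ x ∈ A, ⨆ _ : Unit, Eu x = ⊤) → TopTransitive f := by
    intro h
    have h2 := hm.out 6 0
    exact (h2.mp h) ()
  apply h1
  refine ⟨{γ | LeafMap f.symm f.symm γ}, ∅, fun γ hγ => ⟨(), (), hγ⟩, by simp, ?_⟩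
  intro A hAn hAc hAγ _
  left
  have hinv : ∀ x, f x ∈ A ↔ x ∈ A := by
    intro x
    constructor
    · intro hx
      have h2 : f.symm (f x) ∈ A := hAγ _ (leafMap_symm f.toHomeomorph) hx
      have h3 : f.symm (f x) = x := f.toHomeomorph.symm_apply_apply x
      rwa [h3] at h2
    · intro hx
      exact hAγ _ (leafMap_self f.toHomeomorph) hx
  have hatt : ∃ O, Attracts f A O := by
    obtain ⟨m, e, he, hemb, hinj⟩ := exists_embedding_euclidean_of_compact (I := 𝓘(ℝ, E)) (M := M)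
    let _ : MetricSpace M := hemb.isEmbedding.comapMetricSpace e
    have hiso : ∀ x y : M, dist x y = ‖e x - e y‖ := fun x y => dist_eq_norm (e x) (e y)
    have he1 : ContMDiff 𝓘(ℝ, E) (𝓡 m) 1 e := he.of_le (by simp)
    obtain ⟨C, a, b, Ls, Lu, hE⟩ := eanosov_of_isAnosov e he1 hinj f Es Eu hA
    obtain ⟨N, S, c, hG⟩ := exists_good hiso he1 hinj hE
    have h2 := (closedLeafUnion_iff f.toHomeomorph A).mp (hAc ())
    have h3 := hG.att h2.1 hAn h2.2
    have h4 := hG.lp
    rw [hG.g] at h3 h4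
    exact attracts_of_lp hG.one_le h4 h3 fun x hx => (hinv x).mpr hx
  obtain ⟨O, hO⟩ := hatt
  have h5 := H A O (hAc ()).1 hAn hinv (fun γ hγ => hAγ γ hγ) hO
  rw [h5, interior_univ]
  exact univ_nonempty

/-- maps of an equicontinuous group normalised by `f` permute the leaves -/
theorem leafMap_of_equi (f : M ≃ₜ M) {G : Subgroup (M ≃ₜ M)} (hG : Equi (G : Set (M ≃ₜ M)))
    (hfG : ∀ g ∈ G, ∃ g' ∈ G, ∀ x, f.symm (g x) = g' (f.symm x)) {g : M ≃ₜ M} (hg : g ∈ G)
    {x y : M} (h : Asym f.symm x y) : Asym f.symm (g x) (g y) := by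
  have hfn : ∀ n : ℕ, ∀ g ∈ G, ∃ g' ∈ G, ∀ x, f.symm^[n] (g x) = g' (f.symm^[n] x) := by
    intro n
    induction n with
    | zero => exact fun g hg => ⟨g, hg, fun x => rfl⟩
    | succ n ih =>
      intro g hg
      obtain ⟨g', hg', h1⟩ := ih g hg
      obtain ⟨g'', hg'', h2⟩ := hfG g' hg'
      refine ⟨g'', hg'', fun x => ?_⟩
      rw [Function.iterate_succ_apply', Function.iterate_succ_apply', h1, h2]
  unfold Asym at *
  intro 𝒰 h𝒰
  rw [mem_map]
  filter_upwards [h (hG 𝒰 h𝒰)] with n hn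
  obtain ⟨g', hg', h1⟩ := hfn n g hg
  have h2 : (g' (f.symm^[n] x), g' (f.symm^[n] y)) ∈ 𝒰 := hn g' hg'
  rw [mem_preimage, h1, h1]
  exact h2

theorem leafMap_homeo (f : M ≃ₜ M) {G : Subgroup (M ≃ₜ M)}
    (hG : ∀ g ∈ G, ∀ x y, Asym f.symm x y → Asym f.symm (g x) (g y)) {g : M ≃ₜ M} (hg : g ∈ G) :
    LeafMap f.symm f.symm g where
  continuous := g.continuous
  map _ _ h := hG g hg _ _ h
  meets y := ⟨g.symm y, by rw [g.apply_symm_apply]; exact asym_refl _ y⟩

end Pool.Agent.H66.Rec
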