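import Mathlib

set_option autoImplicit false

/-!
# Recurrence modulo a map or a group: the topological part
-/

namespace Pool.Agent.H66.Rec

open Filter Topology Set

/-- the open set `O` contains `A`, and its forward images converge to `A` -/
def Attracts {M : Type*} [TopologicalSpace M] (f : M → M) (A O : Set M) : Prop :=
  IsOpen O ∧ A ⊆ O ∧ ∀ V : Set M, IsOpen V → A ⊆ V → ∃ m : ℕ, ∀ n ≥ m, ∀ x ∈ O, f^[n] x ∈ V

/-- arbitrarily large iterates of `U` meet `U` -/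
def Returns {M : Type*} (f : M → M) (U : Set M) : Prop :=
  ∀ N : ℕ, ∃ n ≥ N, (f^[n] '' U ∩ U).Nonempty

/-- `G` is an equicontinuous set of homeomorphisms -/
def Equi {M : Type*} [TopologicalSpace M] (G : Set (M ≃ₜ M)) : Prop :=
  ∀ 𝒰 ∈ 𝓝ˢ (diagonal M), ∀ᶠ p in 𝓝ˢ (diagonal M), ∀ g ∈ G, (g p.1, g p.2) ∈ 𝒰

/-- `U` is `G`-invariant -/
def Inv {M : Type*} [TopologicalSpace M] (G : Set (M ≃ₜ M)) (U : Set M) : Prop :=
  ∀ g ∈ G, ∀ x ∈ U, g x ∈ U

theorem eq_univ_of_open {M : Type*} [TopologicalSpace M] [ConnectedSpace M] {A : Set M}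
    (hc : IsClosed A) (ho : IsOpen A) (hn : A.Nonempty) : A = univ := by
  rcases isClopen_iff.mp ⟨hc, ho⟩ with h | h
  · exact absurd h hn.ne_empty
  · exact h

/-- the case of a map -/
theorem map_univ {M : Type*} [TopologicalSpace M] [CompactSpace M] [ConnectedSpace M]
    {Y : Type*} [TopologicalSpace Y] [T2Space Y] {f : M → M} {A O : Set M} (hAc : IsClosed A)
    (hAn : A.Nonempty) (hO : Attracts f A O) {h : M → Y} (hh : Continuous h)
    (hsat : ∀ x ∈ A, ∀ y, h x = h y → y ∈ A)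
    (hret : ∀ V : Set Y, IsOpen V → (h ⁻¹' V).Nonempty → Returns f (h ⁻¹' V)) : A = univ := by
  obtain ⟨hOo, hAO, hatt⟩ := hO
  have hK : IsCompact (h '' A) := hAc.isCompact.image hh
  have hK' : IsCompact (h '' Oᶜ) := hOo.isClosed_compl.isCompact.image hh
  have hV₁o : IsOpen (h '' Oᶜ)ᶜ := hK'.isClosed.isOpen_compl
  have hV₁O : ∀ x, h x ∈ (h '' Oᶜ)ᶜ → x ∈ O := by
    intro x hx
    by_contra hxO
    exact hx ⟨x, hxO, rfl⟩
  have hA₁ : ∀ x ∈ A, h x ∈ (h '' Oᶜ)ᶜ := by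
    rintro x hx ⟨y, hy, hyx⟩
    exact hy (hAO (hsat x hx y hyx.symm))
  have key : ∀ x, h x ∈ (h '' Oᶜ)ᶜ → x ∈ A := by
    intro x hx
    by_contra hxA
    have h1 : h x ∉ h '' A := by
      rintro ⟨y, hy, hyx⟩
      exact hxA (hsat y hy x hyx)
    obtain ⟨U, V, hU, hV, hxU, hKV, hd⟩ := (SeparatedNhds.of_isCompact_isCompact
      (isCompact_singleton (x := h x)) hK (disjoint_singleton_left.mpr h1))
    obtain ⟨m, hm⟩ := hatt (h ⁻¹' V) (hV.preimage hh) fun a ha => hKV ⟨a, ha, rfl⟩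
    obtain ⟨n, hn, y, ⟨z, hz, rfl⟩, hy⟩ := hret (U ∩ (h '' Oᶜ)ᶜ) (hU.inter hV₁o)
      ⟨x, hxU rfl, hx⟩ m
    exact hd.le_bot ⟨hy.1, hm n hn z (hV₁O z hz.2)⟩
  have h2 : A = h ⁻¹' (h '' Oᶜ)ᶜ := Subset.antisymm (fun x hx => hA₁ x hx) (fun x hx => key x hx)
  exact eq_univ_of_open hAc (h2 ▸ hV₁o.preimage hh) hAn

section group

variable {M : Type*} [MetricSpace M] [CompactSpace M]

theorem Equi.metric {G : Set (M ≃ₜ M)} (h : Equi G) {ε : ℝ} (hε : 0 < ε) :
    ∃ δ > 0, ∀ g ∈ G, ∀ x y, dist x y < δ → dist (g x) (g y) < ε := by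
  have h1 : {p : M × M | dist p.1 p.2 < ε} ∈ 𝓝ˢ (diagonal M) := by
    rw [nhdsSet_diagonal_eq_uniformity]
    exact Metric.dist_mem_uniformity hε
  have h2 := h _ h1
  rw [nhdsSet_diagonal_eq_uniformity] at h2
  obtain ⟨δ, hδ, h3⟩ := Metric.mem_uniformity_dist.mp h2
  exact ⟨δ, hδ, fun g hg x y hxy => h3 hxy g hg⟩

/-- invariant neighbourhoods -/
theorem exists_inv_nhd {G : Subgroup (M ≃ₜ M)} (hG : Equi (G : Set (M ≃ₜ M))) {K W : Set M}
    (hK : IsCompact K) (hKi : Inv (G : Set (M ≃ₜ M)) K) (hW : IsOpen W) (hKW : K ⊆ W) :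
    ∃ W', IsOpen W' ∧ Inv (G : Set (M ≃ₜ M)) W' ∧ K ⊆ W' ∧ closure W' ⊆ W := by
  obtain ⟨ε, hε, hεW⟩ := hK.exists_cthickening_subset_open hW hKW
  obtain ⟨δ, hδ, hd⟩ := hG.metric hε
  refine ⟨⋃ g ∈ G, (g : M → M) '' (Metric.thickening δ K), ?_, ?_, ?_, ?_⟩
  · exact isOpen_biUnion fun g _ => g.isOpenMap _ Metric.isOpen_thickening
  · intro g hg x hx
    simp only [mem_iUnion] at hx ⊢
    obtain ⟨g', hg', y, hy, rfl⟩ := hx
    exact ⟨g * g', G.mul_mem hg hg', y, hy, rfl⟩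
  · intro x hx
    simp only [mem_iUnion]
    exact ⟨1, G.one_mem, x, Metric.self_subset_thickening hδ K hx, rfl⟩
  · refine Subset.trans ?_ hεW
    refine closure_minimal ?_ Metric.isClosed_cthickening
    intro x hx
    simp only [mem_iUnion] at hx
    obtain ⟨g, hg, y, hy, rfl⟩ := hx
    obtain ⟨k, hk, hyk⟩ := Metric.mem_thickening_iff.mp hy
    have h1 := hd g hg y k hyk
    exact Metric.thickening_subset_cthickening ε K
      (Metric.mem_thickening_iff.mpr ⟨g k, hKi g hg k hk, h1⟩)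

/-- separation of a point from an invariant set -/
theorem exists_inv_sep {G : Subgroup (M ≃ₜ M)} (hG : Equi (G : Set (M ≃ₜ M))) {K : Set M}
    (hK : IsClosed K) (hKi : Inv (G : Set (M ≃ₜ M)) K) {x : M} (hx : x ∉ K) :
    ∃ U V, IsOpen U ∧ Inv (G : Set (M ≃ₜ M)) U ∧ x ∈ U ∧ IsOpen V ∧ K ⊆ V ∧ Disjoint U V := by
  obtain ⟨W, hW, hWi, hKW, hWx⟩ := exists_inv_nhd hG hK.isCompact hKi (isOpen_compl_singleton (x := x))
    (by
      intro k hk hkx
      rw [mem_singleton_iff] at hkx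
      exact hx (hkx ▸ hk))
  refine ⟨(closure W)ᶜ, W, isClosed_closure.isOpen_compl, ?_, fun h => hWx h rfl, hW, hKW, ?_⟩
  · intro g hg y hy hgy
    apply hy
    have h1 : MapsTo (g⁻¹ : M ≃ₜ M) W W := fun z hz => hWi _ (G.inv_mem hg) z hz
    have h2 := h1.closure (g⁻¹ : M ≃ₜ M).continuous hgy
    have h3 : (g⁻¹ : M ≃ₜ M) (g y) = y := g.symm_apply_apply y
    rwa [h3] at h2
  · exact disjoint_compl_left.mono_right subset_closure

/-- the case of a group -/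
theorem group_univ [ConnectedSpace M] {G : Subgroup (M ≃ₜ M)} (hG : Equi (G : Set (M ≃ₜ M)))
    {f : M → M} {A O : Set M} (hAc : IsClosed A) (hAn : A.Nonempty) (hO : Attracts f A O)
    (hAi : Inv (G : Set (M ≃ₜ M)) A)
    (hret : ∀ U : Set M, IsOpen U → U.Nonempty → Inv (G : Set (M ≃ₜ M)) U → Returns f U) :
    A = univ := by
  obtain ⟨hOo, hAO, hatt⟩ := hO
  obtain ⟨W, hW, hWi, hAW, hWO⟩ := exists_inv_nhd hG hAc.isCompact hAi hOo hAO
  have key : ∀ x ∈ W, x ∈ A := by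
    intro x hx
    by_contra hxA
    obtain ⟨U, V, hU, hUi, hxU, hV, hAV, hd⟩ := exists_inv_sep hG hAc hAi hxA
    obtain ⟨m, hm⟩ := hatt V hV hAV
    obtain ⟨n, hn, y, ⟨z, hz, rfl⟩, hy⟩ := hret (U ∩ W) (hU.inter hW) ⟨x, hxU, hx⟩
      (fun g hg y hy => ⟨hUi g hg y hy.1, hWi g hg y hy.2⟩) m
    exact hd.le_bot ⟨hy.1, hm n hn z (hWO (subset_closure hz.2))⟩
  have h2 : A = W := Subset.antisymm hAW key
  exact eq_univ_of_open hAc (h2 ▸ hW) hAn

/-- trapping regions -/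
theorem trap_univ [ConnectedSpace M] {G : Subgroup (M ≃ₜ M)} (hG : Equi (G : Set (M ≃ₜ M)))
    {f : M → M} (hf : Continuous f) (hfG : ∀ g ∈ G, ∃ g' ∈ G, ∀ x, f (g x) = g' (f x))
    {A O : Set M} (hAc : IsClosed A) (hAn : A.Nonempty) (hAf : ∀ x ∈ A, f x ∈ A)
    (hO : Attracts f A O) (hAi : Inv (G : Set (M ≃ₜ M)) A)
    (htr : ∀ U : Set M, IsOpen U → U.Nonempty → Inv (G : Set (M ≃ₜ M)) U →
      closure (f '' U) ⊆ U → U = univ) :
    A = univ := by
  obtain ⟨hOo, hAO, hatt⟩ := hO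
  by_contra hne
  obtain ⟨y, hy⟩ := (ne_univ_iff_exists_notMem A).mp hne
  have hfn : ∀ n : ℕ, ∀ g ∈ G, ∃ g' ∈ G, ∀ x, f^[n] (g x) = g' (f^[n] x) := by
    intro n
    induction n with
    | zero => exact fun g hg => ⟨g, hg, fun x => rfl⟩
    | succ n ih =>
      intro g hg
      obtain ⟨g', hg', h1⟩ := ih g hg
      obtain ⟨g'', hg'', h2⟩ := hfG g' hg'
      refine ⟨g'', hg'', fun x => ?_⟩
      rw [Function.iterate_succ_apply', Function.iterate_succ_apply', h1, h2]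
  have hAfn : ∀ n : ℕ, ∀ x ∈ A, f^[n] x ∈ A := by
    intro n
    induction n with
    | zero => exact fun x hx => hx
    | succ n ih =>
      intro x hx
      rw [Function.iterate_succ_apply']
      exact hAf _ (ih x hx)
  -- `T` and `V`
  obtain ⟨T, hT, hTi, hAT, hTO⟩ := exists_inv_nhd hG hAc.isCompact hAi
    (hOo.inter (isOpen_compl_singleton (x := y)))
    (fun a ha => ⟨hAO ha, fun h => hy (by rw [mem_singleton_iff] at h; exact h ▸ ha)⟩)
  obtain ⟨V, hV, hVi, hAV, hVT⟩ := exists_inv_nhd hG hAc.isCompact hAi hT hAT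
  obtain ⟨m, hm⟩ := hatt V hV hAV
  -- interpolation
  have hint : ∀ S : {S : Set M // IsOpen S ∧ Inv (G : Set (M ≃ₜ M)) S ∧ closure S ⊆ T},
      ∃ S' : {S : Set M // IsOpen S ∧ Inv (G : Set (M ≃ₜ M)) S ∧ closure S ⊆ T},
        closure S.1 ⊆ S'.1 := by
    rintro ⟨S, hS, hSi, hST⟩
    have hci : Inv (G : Set (M ≃ₜ M)) (closure S) := by
      intro g hg x hx
      have h1 : MapsTo g S S := fun z hz => hSi _ hg z hz
      exact h1.closure g.continuous hx
    obtain ⟨S', h1, h2, h3, h4⟩ := exists_inv_nhd hG isClosed_closure.isCompact hci hT hST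
    exact ⟨⟨S', h1, h2, h4⟩, h3⟩
  choose F hF using hint
  let S : ℕ → {S : Set M // IsOpen S ∧ Inv (G : Set (M ≃ₜ M)) S ∧ closure S ⊆ T} := fun n =>
    Nat.rec ⟨V, hV, hVi, hVT⟩ (fun _ s => F s) n
  have hS0 : (S 0).1 = V := rfl
  have hSs : ∀ n, closure (S n).1 ⊆ (S (n + 1)).1 := fun n => hF (S n)
  have hVS : ∀ n, V ⊆ (S n).1 := by
    intro n
    induction n with
    | zero => exact subset_rfl
    | succ n ih => exact ih.trans (subset_closure.trans (hSs n))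
  have hTm : ∀ x ∈ T, ∀ n ≥ m, f^[n] x ∈ V := fun x hx n hn => hm n hn x (hTO (subset_closure hx)).1
  -- the trapping region
  set R : Set M := {x | ∀ k < m + 1, f^[k] x ∈ (S (m + 1 - k)).1} with hR
  have hRo : IsOpen R := by
    have : R = ⋂ k ∈ Finset.range (m + 1), f^[k] ⁻¹' (S (m + 1 - k)).1 := by
      ext x
      simp [hR, Finset.mem_range]
    rw [this]
    exact isOpen_biInter_finset fun k _ => (S _).2.1.preimage (hf.iterate k)
  have hRT : R ⊆ T := by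
    intro x hx
    have h1 : x ∈ (S (m + 1)).1 := hx 0 (Nat.succ_pos m)
    exact (S (m + 1)).2.2.2 (subset_closure h1)
  have hRi : Inv (G : Set (M ≃ₜ M)) R := by
    intro g hg x hx k hk
    obtain ⟨g', hg', h1⟩ := hfn k g hg
    rw [h1]
    exact (S _).2.2.1 g' hg' _ (hx k hk)
  have hRA : A ⊆ R := fun x hx k _ => hVS _ (hAV (hAfn k x hx))
  have hRc : closure (f '' R) ⊆ R := by
    intro x hx k hk
    have h1 : MapsTo f^[k] (f '' R) (S (m - k)).1 := by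
      rintro _ ⟨z, hz, rfl⟩
      rw [← Function.iterate_succ_apply]
      rcases Nat.lt_or_ge (k + 1) (m + 1) with h2 | h2
      · have h3 := hz (k + 1) h2
        have h4 : m + 1 - (k + 1) = m - k := by omega
        rw [h4] at h3
        exact h3
      · exact hVS _ (hTm z (hRT hz) (k + 1) (by omega))
    have h2 := h1.closure (hf.iterate k) hx
    have h3 : m - k + 1 = m + 1 - k := by omega
    exact h3 ▸ hSs (m - k) h2
  have h5 := htr R hRo (hAn.mono hRA) hRi hRc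
  have h6 : y ∈ T := hRT (h5 ▸ mem_univ y)
  exact (hTO (subset_closure h6)).2 rfl

end group

end Pool.Agent.H66.Rec
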